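import Pool.Agent.Q272.AbcH.Zlow

/-! Asymptotic facts. -/

set_option autoImplicit false

open Finset Filter Topology

namespace Q272.AbcH

lemma ev_log_ge (C : ℝ) : ∀ᶠ n : ℕ in atTop, C ≤ Real.log (n : ℝ) :=
  (Real.tendsto_log_atTop.comp tendsto_natCast_atTop_atTop).eventually_ge_atTop C

lemma ev_nat_ge (C : ℝ) : ∀ᶠ n : ℕ in atTop, C ≤ (n : ℝ) :=
  tendsto_natCast_atTop_atTop.eventually_ge_atTop C

/-- `n^{1-ε} (log n)^2 ≤ c n`. -/
lemma ev_W (ε c : ℝ) (hε : 0 < ε) (hc : 0 < c) : ∀ᶠ n : ℕ in atTop,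
    (n : ℝ) ^ (1 - ε) * Real.log n ^ 2 ≤ c * n := by
  have h := (isLittleO_log_rpow_rpow_atTop 2 hε).bound hc
  have h' := tendsto_natCast_atTop_atTop (R := ℝ) |>.eventually h
  filter_upwards [h', ev_nat_ge 1] with n hn h1
  have hn0 : (0 : ℝ) < n := by linarith
  have hl : 0 ≤ Real.log (n : ℝ) := Real.log_nonneg h1
  rw [Real.norm_of_nonneg (by positivity), Real.norm_of_nonneg (by positivity)] at hn
  have e : Real.log (n : ℝ) ^ (2 : ℝ) = Real.log n ^ 2 := by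
    rw [← Real.rpow_natCast]; norm_num
  rw [e] at hn
  calc (n : ℝ) ^ (1 - ε) * Real.log n ^ 2 ≤ (n : ℝ) ^ (1 - ε) * (c * (n : ℝ) ^ ε) :=
        mul_le_mul_of_nonneg_left hn (by positivity)
    _ = c * ((n : ℝ) ^ (1 - ε) * (n : ℝ) ^ ε) := by ring
    _ = c * n := by rw [← Real.rpow_add hn0]; norm_num

/-- `(log n)^2 ≤ c n`. -/
lemma ev_log_sq (c : ℝ) (hc : 0 < c) : ∀ᶠ n : ℕ in atTop,
    Real.log (n : ℝ) ^ 2 ≤ c * n := by
  filter_upwards [ev_W 1 c one_pos hc] with n hn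
  simpa using hn

lemma ev_N_ge (C : ℝ) : ∀ᶠ n : ℕ in atTop, C ≤ (n : ℝ) / Real.log n := by
  filter_upwards [ev_log_sq 1 one_pos, ev_log_ge (max C 1)] with n h1 h2
  have hC : C ≤ Real.log (n : ℝ) := (le_max_left _ _).trans h2
  have h1' : 1 ≤ Real.log (n : ℝ) := (le_max_right _ _).trans h2
  rw [le_div_iff₀ (by linarith)]
  nlinarith

/-- `A + B log n ≤ c n / log n`. -/
lemma ev_log_le_N (A B c : ℝ) (hB : 0 ≤ B) (hc : 0 < c) : ∀ᶠ n : ℕ in atTop,
    A + B * Real.log (n : ℝ) ≤ c * (n / Real.log n) := by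
  have hc' : 0 < c / (B + 1) := by positivity
  filter_upwards [ev_log_sq (c / (B + 1)) hc', ev_log_ge (max A 1)] with n h1 h2
  have hA : A ≤ Real.log (n : ℝ) := (le_max_left _ _).trans h2
  have h1' : 1 ≤ Real.log (n : ℝ) := (le_max_right _ _).trans h2
  have hl : 0 < Real.log (n : ℝ) := by linarith
  have h3 : Real.log (n : ℝ) * (B + 1) ≤ c * (n / Real.log n) := by
    rw [mul_div_assoc', le_div_iff₀ hl]
    rw [div_mul_eq_mul_div, le_div_iff₀ (by positivity)] at h1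
    nlinarith
  nlinarith

/-- `A + B n / log n ≤ c n`. -/
lemma ev_N_le_n (A B c : ℝ) (hB : 0 ≤ B) (hc : 0 < c) : ∀ᶠ n : ℕ in atTop,
    A + B * (n / Real.log (n : ℝ)) ≤ c * n := by
  filter_upwards [ev_nat_ge (2 * A / c), ev_log_ge (max (2 * B / c) 1)] with n h1 h2
  have h2' : 2 * B / c ≤ Real.log (n : ℝ) := (le_max_left _ _).trans h2
  have h1' : 1 ≤ Real.log (n : ℝ) := (le_max_right _ _).trans h2
  have hl : 0 < Real.log (n : ℝ) := by linarith
  rw [div_le_iff₀ hc] at h1 h2'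
  have hn : (0 : ℝ) ≤ n := by positivity
  have h3 : B * (n / Real.log (n : ℝ)) ≤ c * n / 2 := by
    rw [mul_div_assoc', div_le_iff₀ hl]
    nlinarith
  linarith

lemma ev_card_le (K : ℕ) (hK : 2 ≤ K) : ∀ᶠ n : ℕ in atTop,
    ((Pr (K * n)).card : ℝ) ≤ 2 * K * (n / Real.log n) := by
  have hpi : ∀ᶠ x : ℝ in atTop, (Nat.primeCounting ⌊x⌋₊ : ℝ) * Real.log x / x < 2 :=
    Pool.Agent.Helper923.PNT.pi_tendsto.eventually_lt_const (by norm_num)
  have ht : Tendsto (fun n : ℕ => ((K * n : ℕ) : ℝ)) atTop atTop := by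
    refine tendsto_natCast_atTop_atTop.comp ?_
    exact tendsto_id.const_mul_atTop' (by omega)
  filter_upwards [ht.eventually hpi, eventually_gt_atTop 1] with n h1 hn
  rw [Nat.floor_natCast] at h1
  rw [card_Pr]
  have hnR : (1 : ℝ) < n := by exact_mod_cast hn
  have hKR : (2 : ℝ) ≤ K := by exact_mod_cast hK
  have hl : 0 < Real.log (n : ℝ) := Real.log_pos hnR
  have hKn : (0 : ℝ) < ((K * n : ℕ) : ℝ) := by push_cast; positivity
  have hl2 : Real.log (n : ℝ) ≤ Real.log ((K * n : ℕ) : ℝ) := by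
    apply Real.log_le_log (by linarith)
    push_cast
    nlinarith
  rw [div_lt_iff₀ hKn] at h1
  rw [mul_div_assoc', le_div_iff₀ hl]
  have hp : (0 : ℝ) ≤ Nat.primeCounting (K * n) := by positivity
  have := mul_le_mul_of_nonneg_left hl2 hp
  push_cast at h1
  push_cast at this
  linarith

/-- few small primes in a set of given total logarithm. -/
lemma card_upper (n : ℕ) (hn : 2 ≤ n) (ε : ℝ) (hε0 : 0 < ε) (hε1 : ε < 1) (D : Finset ℕ)
    (hD : ∀ p ∈ D, p.Prime) :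
    (D.card : ℝ) * ((1 - ε) * Real.log n) ≤
      ∑ p ∈ D, Real.log (p : ℝ) + (n : ℝ) ^ (1 - ε) * Real.log n := by
  classical
  have hnR : (2 : ℝ) ≤ n := by exact_mod_cast hn
  have hl : 0 < Real.log (n : ℝ) := Real.log_pos (by linarith)
  have hx : (0 : ℝ) < (n : ℝ) ^ (1 - ε) := by positivity
  have hsplit := Finset.sum_filter_add_sum_filter_not D (fun p : ℕ => (p : ℝ) < (n : ℝ) ^ (1 - ε))
    (fun p : ℕ => Real.log (p : ℝ))
  have hcs := Finset.card_filter_add_card_filter_not (s := D)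
    (fun p : ℕ => (p : ℝ) < (n : ℝ) ^ (1 - ε))
  have h1 : 0 ≤ ∑ p ∈ D.filter (fun p : ℕ => (p : ℝ) < (n : ℝ) ^ (1 - ε)), Real.log (p : ℝ) := by
    apply Finset.sum_nonneg
    intro p hp
    apply Real.log_nonneg
    exact_mod_cast (hD p (Finset.mem_filter.1 hp).1).one_lt.le
  have h2 : ((D.filter (fun p : ℕ => ¬ (p : ℝ) < (n : ℝ) ^ (1 - ε))).card : ℝ) *
      ((1 - ε) * Real.log n) ≤
      ∑ p ∈ D.filter (fun p : ℕ => ¬ (p : ℝ) < (n : ℝ) ^ (1 - ε)), Real.log (p : ℝ) := by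
    rw [← nsmul_eq_mul]
    apply Finset.card_nsmul_le_sum
    intro p hp
    have hp' := (Finset.mem_filter.1 hp).2
    push Not at hp'
    rw [← Real.log_rpow (by linarith)]
    exact Real.log_le_log hx hp'
  have h3 : ((D.filter (fun p : ℕ => (p : ℝ) < (n : ℝ) ^ (1 - ε))).card : ℝ) ≤
      (n : ℝ) ^ (1 - ε) := by
    have hsub : D.filter (fun p : ℕ => (p : ℝ) < (n : ℝ) ^ (1 - ε)) ⊆
        Finset.Icc 1 ⌊(n : ℝ) ^ (1 - ε)⌋₊ := by
      intro p hp
      rw [Finset.mem_filter] at hp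
      rw [Finset.mem_Icc]
      exact ⟨(hD p hp.1).one_lt.le, Nat.le_floor hp.2.le⟩
    have := Finset.card_le_card hsub
    rw [Nat.card_Icc] at this
    have h4 : ((D.filter (fun p : ℕ => (p : ℝ) < (n : ℝ) ^ (1 - ε))).card : ℝ) ≤
        (⌊(n : ℝ) ^ (1 - ε)⌋₊ : ℝ) := by
      exact_mod_cast (by omega :
        (D.filter (fun p : ℕ => (p : ℝ) < (n : ℝ) ^ (1 - ε))).card ≤ ⌊(n : ℝ) ^ (1 - ε)⌋₊)
    exact h4.trans (Nat.floor_le hx.le)
  have hcs' : ((D.filter (fun p : ℕ => (p : ℝ) < (n : ℝ) ^ (1 - ε))).card : ℝ) +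
      ((D.filter (fun p : ℕ => ¬ (p : ℝ) < (n : ℝ) ^ (1 - ε))).card : ℝ) = D.card := by
    exact_mod_cast hcs
  rw [← hcs', add_mul, ← hsplit]
  have h5 : ((D.filter (fun p : ℕ => (p : ℝ) < (n : ℝ) ^ (1 - ε))).card : ℝ) *
      ((1 - ε) * Real.log n) ≤ (n : ℝ) ^ (1 - ε) * Real.log n := by
    have h6 : (1 - ε) * Real.log n ≤ Real.log n := by nlinarith
    exact mul_le_mul h3 h6 (by nlinarith) hx.le
  linarith

end Q272.AbcH
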