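import Mathlib

/-! The two real-variable regimes. -/

set_option autoImplicit false

namespace Q272.AbcH

/-- `c0 = 1 + log (3π/4)`, half of the final constant. -/
noncomputable def c0 : ℝ := 1 + Real.log (3 * Real.pi / 4)

lemma c0_le : c0 ≤ 5 / 2 := by
  unfold c0
  have h := Real.log_le_sub_one_of_pos (show 0 < 3 * Real.pi / 4 by positivity)
  have := Real.pi_lt_d2
  linarith

lemma c0_ge : 1 ≤ c0 := by
  unfold c0
  have : 0 ≤ Real.log (3 * Real.pi / 4) := by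
    apply Real.log_nonneg
    have := Real.pi_gt_three
    linarith
  linarith

lemma aux_poly {ε : ℝ} (hε0 : 0 < ε) (hε2 : ε ≤ 1 / 50) :
    (3 * Real.pi / 4) * (2 + ε) ≤ (Real.pi / 2 + 4 * ε) * (3 - ε) * (1 - ε) := by
  have hpi1 := Real.pi_gt_d2
  have hpi2 := Real.pi_lt_d2
  have e : (Real.pi / 2 + 4 * ε) * (3 - ε) * (1 - ε) - (3 * Real.pi / 4) * (2 + ε) =
    ε * ((12 - 11 * Real.pi / 4) - (16 - Real.pi / 2) * ε + 4 * ε ^ 2) := by ring
  have h1 : (16 - Real.pi / 2) * ε ≤ 16 * (1 / 50) := by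
    have : 0 ≤ Real.pi / 2 * ε := by positivity
    linarith
  have : 0 ≤ ε * ((12 - 11 * Real.pi / 4) - (16 - Real.pi / 2) * ε + 4 * ε ^ 2) := by
    apply mul_nonneg hε0.le
    have := sq_nonneg ε
    linarith
  linarith

lemma aux_key {L u d l ε : ℝ} (hL0 : 0 < L) (hε0 : 0 < ε) (hε2 : ε ≤ 1 / 50)
    (hu3 : (3 - ε) * L ≤ u) (hdL : d * l * (1 - ε) ≤ (2 + ε) * L) :
    d * l * (3 * Real.pi / 4) ≤ (Real.pi / 2 + 4 * ε) * u := by
  have ha := aux_poly hε0 hε2
  have hpi := Real.pi_pos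
  have hb : (d * l * (3 * Real.pi / 4)) * (1 - ε) ≤ ((Real.pi / 2 + 4 * ε) * u) * (1 - ε) := by
    have s1 := mul_le_mul_of_nonneg_left hdL (show 0 ≤ 3 * Real.pi / 4 by positivity)
    have s2 := mul_le_mul_of_nonneg_right ha hL0.le
    have s3 := mul_le_mul_of_nonneg_left hu3
        (show 0 ≤ (Real.pi / 2 + 4 * ε) * (1 - ε) by
          apply mul_nonneg <;> linarith)
    linarith
  exact le_of_mul_le_mul_right hb (by linarith)

lemma aux_last {n l L ε η κ : ℝ} (hn : 0 < n) (hl0 : 0 < l)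
    (hε0 : 0 < ε) (hη0 : 0 < η) (hη1 : η ≤ 1 / 10) (hκ : 0 < κ) (hκ2 : κ < 2 * c0)
    (hεg : ε ≤ (2 * c0 - κ) * η / 28)
    (hL : η * n ≤ L) (hbig : c0 < η * n * (2 * c0 - κ) / 4) :
    κ * (L / ((1 - ε) * l)) < c0 * ((2 * L - 1) / ((1 + ε) * l)) - 7 * ε * (n / l) := by
  have hc1 := c0_ge
  have hc2 := c0_le
  have hg : 0 < 2 * c0 - κ := by linarith
  have hg5 : 2 * c0 - κ ≤ 5 := by linarith
  have hgη : (2 * c0 - κ) * η ≤ (2 * c0 - κ) * (1 / 10) := mul_le_mul_of_nonneg_left hη1 hg.le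
  have hε1 : ε ≤ (2 * c0 - κ) / 280 := by linarith
  have hε2 : ε ≤ 1 / 50 := by linarith
  have hηn : 0 < η * n := by positivity
  have hL0 : 0 < L := by linarith
  have h1ε : 0 < 1 - ε := by linarith
  have e1 : κ * (L / ((1 - ε) * l)) = (κ * L / (1 - ε)) / l := by
    field_simp
  have e2 : c0 * ((2 * L - 1) / ((1 + ε) * l)) - 7 * ε * (n / l) =
      (c0 * (2 * L - 1) / (1 + ε) - 7 * ε * n) / l := by
    field_simp
  rw [e1, e2]
  apply div_lt_div_of_pos_right _ hl0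
  have h2L : 0 ≤ 2 * L - 1 := by
    have := mul_le_mul_of_nonneg_left hg5 hηn.le
    linarith
  have a1 : κ * L / (1 - ε) ≤ κ * L * (1 + 2 * ε) := by
    rw [div_le_iff₀ h1ε]
    have h3 : 0 ≤ κ * L * (ε * (1 - 2 * ε)) :=
      mul_nonneg (by positivity) (mul_nonneg hε0.le (by linarith))
    have h4 : κ * L * (1 + 2 * ε) * (1 - ε) = κ * L + κ * L * (ε * (1 - 2 * ε)) := by ring
    rw [h4]; linarith
  have a2 : c0 * (2 * L - 1) * (1 - ε) ≤ c0 * (2 * L - 1) / (1 + ε) := by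
    rw [le_div_iff₀ (by linarith)]
    have h3 : 0 ≤ c0 * (2 * L - 1) * ε ^ 2 :=
      mul_nonneg (mul_nonneg (by linarith) h2L) (sq_nonneg ε)
    have h4 : c0 * (2 * L - 1) * (1 - ε) * (1 + ε) =
      c0 * (2 * L - 1) - c0 * (2 * L - 1) * ε ^ 2 := by ring
    rw [h4]; linarith
  have hgL : (2 * c0 - κ) * (η * n) ≤ (2 * c0 - κ) * L := mul_le_mul_of_nonneg_left hL hg.le
  have a3 : 7 * ε * n ≤ (2 * c0 - κ) * L / 4 := by
    have := mul_le_mul_of_nonneg_right hεg hn.le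
    linarith
  have a4 : c0 < (2 * c0 - κ) * L / 4 := by linarith
  have a5 : ε * (2 * c0 + 2 * κ) * L ≤ (2 * c0 - κ) * L / 10 := by
    have h5 : ε * (2 * c0 + 2 * κ) ≤ (2 * c0 - κ) / 280 * 15 :=
      mul_le_mul hε1 (by linarith) (by linarith) (by linarith)
    have h6 : ε * (2 * c0 + 2 * κ) ≤ (2 * c0 - κ) / 10 := by linarith
    have := mul_le_mul_of_nonneg_right h6 hL0.le
    linarith
  have e3 : c0 * (2 * L - 1) * (1 - ε) - 7 * ε * n - κ * L * (1 + 2 * ε) =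
    (2 * c0 - κ) * L - ε * (2 * c0 + 2 * κ) * L - c0 + c0 * ε - 7 * ε * n := by ring
  have e4 : 0 ≤ c0 * ε := mul_nonneg (by linarith) hε0.le
  have e5 : 0 < (2 * c0 - κ) * L := mul_pos hg hL0
  linarith

lemma regime1 {n l L δ Lam d W ε η κ : ℝ} (hn : 0 < n) (hl : l = Real.log n) (hl0 : 0 < l)
    (hε0 : 0 < ε) (hη0 : 0 < η) (hη1 : η ≤ 1 / 10) (hκ : 0 < κ) (hκ2 : κ < 2 * c0)
    (hεg : ε ≤ (2 * c0 - κ) * η / 28)
    (hV : (Real.pi / 2 - 3 * ε) * (n / l) - d * l ≤ δ - Lam)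
    (h1 : 2 * L - 1 ≤ Lam) (h2 : Lam ≤ 2 * L)
    (hδ2 : δ + 1 ≤ ε * η * n) (hd0 : 0 ≤ d)
    (hdu : d * ((1 - ε) * l) ≤ Lam + W) (hW : W ≤ ε * η * n)
    (hdl : Lam ≤ d * ((1 + ε) * l)) (hL : η * n ≤ L) (hlogL : (1 - ε) * l ≤ Real.log L)
    (hbig : c0 < η * n * (2 * c0 - κ) / 4) :
    κ * (L / Real.log L) < δ - Lam + d * Real.log (Lam + L - δ) := by
  have hc1 := c0_ge
  have hc2 := c0_le
  have hg : 0 < 2 * c0 - κ := by linarith
  have hg5 : 2 * c0 - κ ≤ 5 := by linarith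
  have hgη : (2 * c0 - κ) * η ≤ (2 * c0 - κ) * (1 / 10) := mul_le_mul_of_nonneg_left hη1 hg.le
  have hε1 : ε ≤ (2 * c0 - κ) / 280 := by linarith
  have hε2 : ε ≤ 1 / 50 := by linarith
  have hηn : 0 < η * n := by positivity
  have hL0 : 0 < L := by linarith
  have hεηn : ε * η * n ≤ ε * L := by
    have := mul_le_mul_of_nonneg_left hL hε0.le
    linarith
  set u := Lam + L - δ with hu
  have hu3 : (3 - ε) * L ≤ u := by rw [hu]; linarith
  have hu0 : 0 < u := lt_of_lt_of_le (mul_pos (by linarith) hL0) hu3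
  set y := 3 * Real.pi / 4 * n with hy
  have hpi := Real.pi_pos
  have hy0 : 0 < y := by positivity
  have hlogy : Real.log y = (c0 - 1) + l := by
    rw [hy, Real.log_mul (by positivity) hn.ne', hl]; unfold c0; ring
  have hlogu : Real.log y + 1 - y / u ≤ Real.log u := by
    have h := Real.one_sub_inv_le_log_of_pos (show 0 < u / y by positivity)
    rw [inv_div, Real.log_div hu0.ne' hy0.ne'] at h
    linarith
  have hdL : d * l * (1 - ε) ≤ (2 + ε) * L := by linarith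
  have hkey := aux_key hL0 hε0 hε2 hu3 hdL
  have hdy : d * (y / u) ≤ (Real.pi / 2 + 4 * ε) * (n / l) := by
    rw [mul_div_assoc', mul_div_assoc', div_le_div_iff₀ hu0 hl0]
    rw [hy]
    have := mul_le_mul_of_nonneg_left hkey hn.le
    linarith
  have hVlow : c0 * d - 7 * ε * (n / l) ≤ δ - Lam + d * Real.log u := by
    have := mul_le_mul_of_nonneg_left hlogu hd0
    rw [hlogy] at this
    have e : d * (c0 - 1 + l + 1 - y / u) = d * c0 + d * l - d * (y / u) := by ring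
    rw [e] at this
    have e2 : (Real.pi / 2 - 3 * ε) * (n / l) = Real.pi / 2 * (n / l) - 3 * ε * (n / l) := by ring
    have e3 : (Real.pi / 2 + 4 * ε) * (n / l) = Real.pi / 2 * (n / l) + 4 * ε * (n / l) := by ring
    rw [e2] at hV
    rw [e3] at hdy
    linarith
  refine lt_of_lt_of_le ?_ hVlow
  have hll : 0 < (1 - ε) * l := mul_pos (by linarith) hl0
  have hκL : κ * (L / Real.log L) ≤ κ * (L / ((1 - ε) * l)) :=
    mul_le_mul_of_nonneg_left (div_le_div_of_nonneg_left hL0.le hll hlogL) hκ.le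
  refine lt_of_le_of_lt hκL ?_
  have hdlow : (2 * L - 1) / ((1 + ε) * l) ≤ d := by
    rw [div_le_iff₀ (by positivity)]
    linarith
  refine lt_of_lt_of_le (aux_last hn hl0 hε0 hη0 hη1 hκ hκ2 hεg hL hbig) ?_
  have := mul_le_mul_of_nonneg_left hdlow (show 0 ≤ c0 by linarith)
  linarith

lemma aux_sq {n l L t : ℝ} (hn : 0 < n) (hl : l = Real.log n) (hL0 : 0 < L)
    (hL : L < 1 / 900 * n) (ht : t = l - Real.log L) : L * t ≤ n / 15 := by
  have htlog : t = Real.log (n / L) := by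
    rw [Real.log_div hn.ne' hL0.ne', ht, hl]
  set s := Real.sqrt (n / L) with hs
  have hs2 : s ^ 2 = n / L := Real.sq_sqrt (by positivity)
  have hs30 : 30 ≤ s := by
    rw [hs]
    apply Real.le_sqrt_of_sq_le
    rw [le_div_iff₀ hL0]
    linarith
  have hs0 : 0 < s := by linarith
  have hts : t ≤ 2 * s := by
    have e : t = 2 * Real.log s := by
      rw [htlog, ← hs2, Real.log_pow]; norm_num
    have := Real.log_le_sub_one_of_pos hs0
    linarith
  have hnL : n = L * s ^ 2 := by rw [hs2]; field_simp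
  rw [hnL]
  have b1 := mul_le_mul_of_nonneg_left hts hL0.le
  have b2 : 0 ≤ L * (s * (s - 30)) := by
    apply mul_nonneg hL0.le
    apply mul_nonneg hs0.le
    linarith
  have b3 : L * s ^ 2 / 15 - L * (2 * s) = L * (s * (s - 30)) / 15 := by ring
  linarith

lemma regime2 {n l L δ Lam d W ε κ : ℝ} (hn : 0 < n) (hl : l = Real.log n) (hl0 : 0 < l)
    (hε0 : 0 < ε) (hε1 : ε ≤ 1 / 10) (hκ : 0 < κ) (hκ2 : κ ≤ 5)
    (hV : (Real.pi / 2 - 3 * ε) * (n / l) - d * l ≤ δ - Lam)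
    (h1 : 2 * L - 1 ≤ Lam) (h2 : Lam ≤ 2 * L)
    (hδL : δ ≤ L) (hL1 : 1 ≤ L) (hd0 : 0 ≤ d)
    (hdu : d * ((1 - ε) * l) ≤ Lam + W) (hW0 : 0 ≤ W) (hW : W * l ≤ ε * n)
    (hL : L < 1 / 900 * n) (hlogL : l / 2 ≤ Real.log L) :
    κ * (L / Real.log L) < δ - Lam + d * Real.log (Lam + L - δ) := by
  have hpi1 := Real.pi_gt_d2
  have hL0 : 0 < L := by linarith
  have hlogu : Real.log L ≤ Real.log (Lam + L - δ) := Real.log_le_log hL0 (by linarith)
  set t := l - Real.log L with ht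
  have ht0 : 0 ≤ t := by
    have htlog : t = Real.log (n / L) := by
      rw [Real.log_div hn.ne' hL0.ne', ht, hl]
    rw [htlog]
    apply Real.log_nonneg
    rw [le_div_iff₀ hL0]; linarith
  have htl : t ≤ l := by
    rw [ht]
    have : 0 ≤ Real.log L := Real.log_nonneg hL1
    linarith
  have hsq : L * t ≤ n / 15 := aux_sq hn hl hL0 hL ht
  have hN0 : 0 < n / l := by positivity
  have hdt : d * t * (1 - ε) ≤ (2 / 15 + ε) * (n / l) := by
    rw [mul_div_assoc', le_div_iff₀ hl0]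
    have s1 : d * ((1 - ε) * l) * t ≤ (2 * L + W) * t :=
      mul_le_mul_of_nonneg_right (by linarith) ht0
    have s2 : W * t ≤ W * l := mul_le_mul_of_nonneg_left htl hW0
    linarith
  have hdt2 : d * t ≤ (1 / 3) * (n / l) := by
    have h0 : 0 ≤ d * t := mul_nonneg hd0 ht0
    have h3 : d * t * ε ≤ d * t * (1 / 10) := mul_le_mul_of_nonneg_left hε1 h0
    have h4 : ε * (n / l) ≤ (1 / 10) * (n / l) := mul_le_mul_of_nonneg_right hε1 hN0.le
    linarith
  have hVl : (6 / 5) * (n / l) - d * t ≤ δ - Lam + d * Real.log L := by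
    have e : d * Real.log L = d * l - d * t := by rw [ht]; ring
    rw [e]
    have h4 : ε * (n / l) ≤ (1 / 10) * (n / l) := mul_le_mul_of_nonneg_right hε1 hN0.le
    have h5 : 3.14 * (n / l) ≤ Real.pi * (n / l) := mul_le_mul_of_nonneg_right hpi1.le hN0.le
    linarith
  have hdlog := mul_le_mul_of_nonneg_left hlogu hd0
  have hκL : κ * (L / Real.log L) ≤ (1 / 90) * (n / l) := by
    have s1 : L / Real.log L ≤ L / (l / 2) :=
      div_le_div_of_nonneg_left hL0.le (by linarith) hlogL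
    have s2 : L / (l / 2) ≤ (1 / 450) * (n / l) := by
      rw [mul_div_assoc', div_le_div_iff₀ (by linarith) hl0]
      have := mul_le_mul_of_nonneg_right hL.le hl0.le
      linarith
    have s3 : 0 ≤ L / Real.log L := by
      apply div_nonneg hL0.le
      linarith
    have s4 := mul_le_mul hκ2 (s1.trans s2) s3 (by norm_num)
    linarith
  linarith

end Q272.AbcH
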