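import Pool.Agent.Q272.AbcH.Triple
import Pool.Agent.Q272.AbcH.Asym
import Pool.Agent.Q272.AbcH.Regime

/-! Assembly. -/

set_option autoImplicit false

open Finset Filter Topology

namespace Q272.AbcH

lemma prime_Pr {M p : ℕ} (h : p ∈ Pr M) : p.Prime := (mem_Pr.1 h).2

lemma gw_le {K n p : ℕ} (hn : 0 < n) (hK : 1 ≤ K) (hp : p ≤ K * n) :
    gw n p ≤ Real.log K := by
  unfold gw
  split_ifs with h
  · exact Real.log_nonneg (by exact_mod_cast hK)
  · have hp0 : 0 < p := by omega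
    apply Real.log_le_log (by positivity)
    rw [div_le_iff₀ (by positivity)]
    exact_mod_cast hp

lemma gw_sub_log {n p : ℕ} (hn : 0 < n) (hp : p.Prime) :
    -Real.log n ≤ gw n p - Real.log p := by
  have hp0 : (0 : ℝ) < p := by exact_mod_cast hp.pos
  have hn0 : (0 : ℝ) < n := by exact_mod_cast hn
  unfold gw
  split_ifs with h
  · have : Real.log p ≤ Real.log n := Real.log_le_log hp0 (by exact_mod_cast h)
    linarith
  · rw [Real.log_div hp0.ne' hn0.ne']
    linarith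

lemma sum_log_Pr_le (M : ℕ) : ∑ p ∈ Pr M, Real.log (p : ℝ) ≤ 2 * M := by
  rw [← log_prod_primes (Pr M) (fun p hp => prime_Pr hp)]
  have h1 : ∏ p ∈ Pr M, p = primorial M := by
    unfold primorial
    apply Finset.prod_congr _ (fun _ _ => rfl)
    ext p
    rw [mem_Pr, Finset.mem_filter, Finset.mem_range]
    constructor
    · rintro ⟨h, hp⟩; exact ⟨by omega, hp⟩
    · rintro ⟨h, hp⟩; exact ⟨by omega, hp⟩
  rw [h1]
  have h2 : ((primorial M : ℕ) : ℝ) ≤ ((4 ^ M : ℕ) : ℝ) := by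
    exact_mod_cast primorial_le_four_pow M
  have h3 : (0 : ℝ) < (primorial M : ℕ) := by exact_mod_cast primorial_pos M
  have h4 := Real.log_le_log h3 h2
  push_cast at h4
  rw [Real.log_pow] at h4
  have h5 : Real.log 4 ≤ 2 := by
    have : Real.log 4 = 2 * Real.log 2 := by
      rw [show (4 : ℝ) = 2 ^ 2 by norm_num, Real.log_pow]; norm_num
    have := Real.log_two_lt_d9
    linarith
  have h6 : (0 : ℝ) ≤ M := by positivity
  nlinarith

lemma log_le_half {x : ℝ} (hx : 0 < x) : Real.log x ≤ x / 2 := by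
  have h1 : Real.log x = 2 * Real.log (Real.sqrt x) := by
    conv_lhs => rw [← Real.sq_sqrt hx.le]
    rw [Real.log_pow]; norm_num
  have hs : 0 < Real.sqrt x := Real.sqrt_pos.2 hx
  have h2 := Real.log_le_sub_one_of_pos hs
  have h3 := Real.sq_sqrt hx.le
  nlinarith [sq_nonneg (Real.sqrt x - 2)]

/-- all the conditions holding for large `n`, for given parameters. -/
structure Good (κ ε B : ℝ) (K n : ℕ) : Prop where
  n2 : 2 ≤ n
  l1 : 1 ≤ Real.log (n : ℝ)
  Z : (Real.pi / 2 - ε) * (n / Real.log n) ≤ ∑ p ∈ Pr (K * n), hw n p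
  E : Real.log (12 * K ^ 3) + 2 * Real.log (n : ℝ) ≤ ε * (n / Real.log n)
  N1 : 1 / ε ≤ (n : ℝ) / Real.log n
  card : ((Pr (K * n)).card : ℝ) ≤ 2 * K * (n / Real.log n)
  δ : 1 + (2 * K * (2 * Real.log K + 1)) * (n / Real.log (n : ℝ)) ≤ (ε * (1 / 900)) * n
  W : (n : ℝ) ^ (1 - ε) * Real.log n ^ 2 ≤ (ε * (1 / 900)) * n
  logK : Real.log K / ε ≤ Real.log (n : ℝ)
  logη : Real.log 900 / ε ≤ Real.log (n : ℝ)
  NB : max B 10 ≤ (n : ℝ) / Real.log n
  big : 3600 * c0 / (2 * c0 - κ) + 1 ≤ (n : ℝ)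

lemma exists_good (κ ε B : ℝ) (hε : 0 < ε) : ∃ K n : ℕ, 2 ≤ K ∧ Good κ ε B K n := by
  obtain ⟨K, hK, hZ⟩ := logZ_lower ε hε
  have hlK : 0 ≤ Real.log (K : ℝ) := Real.log_nonneg (by exact_mod_cast (by omega : 1 ≤ K))
  have h := (((((((((((eventually_ge_atTop 2).and (ev_log_ge 1)).and hZ).and
    (ev_log_le_N (Real.log (12 * K ^ 3)) 2 ε (by norm_num) hε)).and (ev_N_ge (1 / ε))).and
    (ev_card_le K hK)).and
    (ev_N_le_n 1 (2 * K * (2 * Real.log K + 1)) (ε * (1 / 900)) (by positivity)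
      (by positivity))).and
    (ev_W ε (ε * (1 / 900)) hε (by positivity))).and (ev_log_ge (Real.log K / ε))).and
    (ev_log_ge (Real.log 900 / ε))).and (ev_N_ge (max B 10))).and
    (ev_nat_ge (3600 * c0 / (2 * c0 - κ) + 1))
  obtain ⟨n, ⟨⟨⟨⟨⟨⟨⟨⟨⟨⟨⟨h1, h2⟩, h3⟩, h4⟩, h5⟩, h6⟩, h7⟩, h8⟩, h9⟩, h10⟩, h11⟩, h12⟩⟩ := h.exists
  exact ⟨K, n, hK, ⟨h1, h2, h3, h4, h5, h6, h7, h8, h9, h10, h11, h12⟩⟩

lemma good_pair {κ ε B : ℝ} {K n : ℕ} (hε : 0 < ε) (hε1 : ε ≤ 1 / 10) (hK : 2 ≤ K)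
    (h : Good κ ε B K n) :
    ∃ (δ : ℝ) (S T : Finset ℕ), S ⊆ Pr (K * n) ∧ T ⊆ Pr (K * n) ∧ S ≠ T ∧
      0 ≤ ∑ p ∈ T, Real.log (p : ℝ) - ∑ p ∈ S, Real.log (p : ℝ) ∧
      ∑ p ∈ T, Real.log (p : ℝ) - ∑ p ∈ S, Real.log (p : ℝ) ≤ Real.exp (-δ) ∧
      (Real.pi / 2 - 3 * ε) * (n / Real.log n) + ∑ p ∈ (S \ T) ∪ (T \ S), gw n p ≤ δ ∧
      δ + 1 ≤ (ε * (1 / 900)) * n := by
  classical
  have hn0 : 0 < n := by have := h.n2; omega
  have hnR : (0 : ℝ) < n := by exact_mod_cast hn0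
  have hn1R : (1 : ℝ) ≤ n := by exact_mod_cast hn0
  have hKR : (2 : ℝ) ≤ K := by exact_mod_cast hK
  have hl1 := h.l1
  have hl0 : 0 < Real.log (n : ℝ) := by linarith
  set N : ℝ := n / Real.log n with hN
  have hN0 : 0 < N := by positivity
  have hpi := Real.pi_gt_three
  have hlogK : Real.log (K : ℝ) ≤ K := by
    have := Real.log_le_sub_one_of_pos (show (0 : ℝ) < K by linarith)
    linarith
  have hlogK0 : 0 ≤ Real.log (K : ℝ) := Real.log_nonneg (by linarith)
  set J : ℕ := 2 * K ^ 2 * n + 1 with hJ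
  set Θ : ℝ := 2 * (K * n) with hΘ
  set Z : ℝ := ∏ p ∈ Pr (K * n), (1 + Real.exp (-(2 * gw n p))) with hZ
  have hlogZ : Real.log Z = ∑ p ∈ Pr (K * n), hw n p := by
    rw [hZ, Real.log_prod]
    · rfl
    · intro p _
      have := Real.exp_pos (-(2 * gw n p))
      positivity
  have hZ0 : 0 < Z := by
    rw [hZ]
    apply Finset.prod_pos
    intro p _
    have := Real.exp_pos (-(2 * gw n p))
    positivity
  have hcardle : ((Pr (K * n)).card : ℝ) ≤ K * n := by
    have h1 : (Pr (K * n)).card ≤ (Finset.Icc 1 (K * n)).card :=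
      Finset.card_le_card (Finset.filter_subset _ _)
    rw [Nat.card_Icc, Nat.add_sub_cancel] at h1
    exact_mod_cast h1
  have hgsum : ∀ S ⊆ Pr (K * n), ∑ p ∈ S, gw n p ≤ (Pr (K * n)).card * Real.log K := by
    intro S hS
    calc ∑ p ∈ S, gw n p ≤ ∑ p ∈ Pr (K * n), gw n p :=
          Finset.sum_le_sum_of_subset_of_nonneg hS (fun p _ _ => gw_nonneg n p)
      _ ≤ ∑ p ∈ Pr (K * n), Real.log K :=
          Finset.sum_le_sum fun p hp => gw_le hn0 (by omega) (mem_Pr.1 hp).1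
      _ = _ := by rw [Finset.sum_const, nsmul_eq_mul]
  have hJsum : 2 * ∑ p ∈ Pr (K * n), gw n p < J := by
    have h1 := hgsum _ (Finset.Subset.refl _)
    have h2 : ((Pr (K * n)).card : ℝ) * Real.log K ≤ (K * n) * K :=
      mul_le_mul hcardle hlogK hlogK0 (by positivity)
    rw [hJ]; push_cast
    nlinarith
  have hΘ1 : 1 ≤ Θ := by rw [hΘ]; nlinarith
  have hΘsum : ∑ p ∈ Pr (K * n), Real.log (p : ℝ) ≤ Θ := by
    have := sum_log_Pr_le (K * n)
    rw [hΘ]; push_cast at this; exact this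
  set E : ℝ := Real.log (2 * J * Θ) with hE
  have hJ1 : (1 : ℝ) ≤ J := by
    have : 1 ≤ J := by omega
    exact_mod_cast this
  have hEarg : 0 < 2 * (J : ℝ) * Θ := by positivity
  have hE0 : 0 ≤ E := Real.log_nonneg (by nlinarith)
  have hEle : E ≤ ε * N := by
    refine le_trans ?_ h.E
    have h1 : 2 * (J : ℝ) * Θ ≤ (12 * K ^ 3) * n ^ 2 := by
      rw [hJ, hΘ]; push_cast
      have h2 : (1 : ℝ) ≤ K ^ 2 * n := by
        have : (1 : ℝ) ≤ K ^ 2 := by nlinarith
        nlinarith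
      nlinarith [mul_pos (show (0:ℝ) < K by linarith) hnR]
    calc E ≤ Real.log ((12 * K ^ 3) * n ^ 2) := Real.log_le_log hEarg h1
      _ = Real.log (12 * K ^ 3) + 2 * Real.log n := by
        rw [Real.log_mul (by positivity) (by positivity), Real.log_pow]; norm_num
  have hZlow : (Real.pi / 2 - ε) * N ≤ Real.log Z := by rw [hlogZ]; exact h.Z
  have hεN : 1 ≤ ε * N := by
    have := h.N1
    rw [div_le_iff₀ hε] at this
    linarith
  have hZJ : 2 * (J : ℝ) < Z := by
    have h1 : E < Real.log Z := by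
      have : ε * N < (Real.pi / 2 - ε) * N := by
        apply mul_lt_mul_of_pos_right _ hN0
        linarith
      linarith
    have h2 : 2 * (J : ℝ) * Θ < Z := by
      rw [hE] at h1
      exact (Real.log_lt_log_iff hEarg hZ0).1 h1
    nlinarith
  obtain ⟨j, S, T, hS, hT, hne, hj1, hj2, hj3, h0, hcl⟩ :=
    pigeon (Pr (K * n)) (gw n) (fun p => Real.log (p : ℝ)) (fun p _ => gw_nonneg n p)
      (fun p hp => Real.log_nonneg (by exact_mod_cast (prime_Pr hp).one_lt.le)) J hJsum Θ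
      (by linarith) hΘsum Z hZ hZJ
  set δ : ℝ := j + Real.log Z - E with hδ
  have hexpδ : Real.exp (-δ) = 2 * J * Θ / (Real.exp j * Z) := by
    rw [hδ, show -((j : ℝ) + Real.log Z - E) = E - (j + Real.log Z) by ring, Real.exp_sub,
      Real.exp_add, Real.exp_log hZ0, hE, Real.exp_log hEarg]
  refine ⟨δ, S, T, hS, hT, hne, h0, by rw [hexpδ]; exact hcl, ?_, ?_⟩
  · have hdisj : Disjoint (S \ T) (T \ S) := by
      rw [Finset.disjoint_left]
      intro p h1 h2
      exact (Finset.mem_sdiff.1 h2).2 (Finset.mem_sdiff.1 h1).1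
    have h1 : ∑ p ∈ S \ T, gw n p ≤ ∑ p ∈ S, gw n p :=
      Finset.sum_le_sum_of_subset_of_nonneg Finset.sdiff_subset (fun p _ _ => gw_nonneg n p)
    have h2 : ∑ p ∈ T \ S, gw n p ≤ ∑ p ∈ T, gw n p :=
      Finset.sum_le_sum_of_subset_of_nonneg Finset.sdiff_subset (fun p _ _ => gw_nonneg n p)
    rw [Finset.sum_union hdisj]
    have e : (Real.pi / 2 - 3 * ε) * N = (Real.pi / 2 - ε) * N - 2 * (ε * N) := by ring
    rw [e]
    linarith
  · have h1 : (j : ℝ) ≤ 2 * ((Pr (K * n)).card * Real.log K) := by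
      have := hgsum S hS
      linarith
    have h2 : Real.log Z ≤ (Pr (K * n)).card := by
      rw [hlogZ]
      calc ∑ p ∈ Pr (K * n), hw n p ≤ ∑ p ∈ Pr (K * n), (1 : ℝ) := by
            refine Finset.sum_le_sum fun p _ => ?_
            unfold hw
            have h3 : Real.exp (-(2 * gw n p)) ≤ 1 :=
              Real.exp_le_one_iff.2 (by have := gw_nonneg n p; linarith)
            have h4 := Real.log_le_sub_one_of_pos
              (show 0 < 1 + Real.exp (-(2 * gw n p)) by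
                have := Real.exp_pos (-(2 * gw n p)); positivity)
            linarith
        _ = _ := by simp
    have h3 : ((Pr (K * n)).card : ℝ) * (2 * Real.log K + 1) ≤
        2 * K * N * (2 * Real.log K + 1) :=
      mul_le_mul_of_nonneg_right h.card (by linarith)
    have h4 := h.δ
    rw [hδ]
    nlinarith

theorem main_aux (κ : ℝ) (hκ : 0 < κ) (hκ2 : κ < 2 * c0) (B : ℝ) :
    ∃ a b c : ℕ, Adm a b c ∧ B ≤ Real.log c ∧ ∃ V : ℝ,
      H (a * b * c) ≤ Real.exp (Real.log c - V) ∧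
      κ * (Real.log c / Real.log (Real.log c)) < V := by
  classical
  set ε : ℝ := (2 * c0 - κ) * (1 / 900) / 28 with hε
  have hc2 := c0_le
  have hc1 := c0_ge
  have hg : 0 < 2 * c0 - κ := by linarith
  have hε0 : 0 < ε := by positivity
  have hε1 : ε ≤ 1 / 10 := by rw [hε]; linarith
  obtain ⟨K, n, hK, h⟩ := exists_good κ ε B hε0
  obtain ⟨δ, S, T, hS, hT, hne, h0, hcl, hδlow, hδup⟩ := good_pair hε0 hε1 hK h
  have hn0 : 0 < n := by have := h.n2; omega
  have hnR : (0 : ℝ) < n := by exact_mod_cast hn0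
  have hKR : (2 : ℝ) ≤ K := by exact_mod_cast hK
  have hl1 := h.l1
  have hl0 : 0 < Real.log (n : ℝ) := by linarith
  set N : ℝ := n / Real.log n with hN
  have hN0 : 0 < N := by positivity
  have hpi := Real.pi_gt_three
  set D := (S \ T) ∪ (T \ S) with hD
  have hDP : ∀ p ∈ D, p ∈ Pr (K * n) := by
    intro p hp
    rcases Finset.mem_union.1 hp with hh | hh
    · exact hS (Finset.mem_sdiff.1 hh).1
    · exact hT (Finset.mem_sdiff.1 hh).1
  have hDprime : ∀ p ∈ D, p.Prime := fun p hp => prime_Pr (hDP p hp)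
  have hGD : 0 ≤ ∑ p ∈ D, gw n p := Finset.sum_nonneg fun p _ => gw_nonneg n p
  have hNδ : N ≤ δ := by
    have : N ≤ (Real.pi / 2 - 3 * ε) * N := by
      have h1 : 1 ≤ Real.pi / 2 - 3 * ε := by
        have : ε ≤ 1 / 50 := by rw [hε]; linarith
        linarith
      nlinarith
    linarith
  have hNB := h.NB
  have hNBB : B ≤ N := (le_max_left _ _).trans hNB
  have hN10 : 10 ≤ N := (le_max_right _ _).trans hNB
  obtain ⟨a, b, c, hadm, hδL, hΛ1, hΛ2, hH⟩ :=
    triple (Pr (K * n)) (fun p hp => prime_Pr hp) S T hS hT hne δ (by linarith) h0 hcl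
  rw [← hD] at hΛ1 hΛ2 hH
  refine ⟨a, b, c, hadm, by linarith, _, hH, ?_⟩
  set L := Real.log (c : ℝ) with hL
  set Lam := ∑ p ∈ D, Real.log (p : ℝ) with hLam
  have hd0 : (0 : ℝ) ≤ D.card := by positivity
  have hgl : -(D.card * Real.log n) ≤ ∑ p ∈ D, gw n p - Lam := by
    rw [hLam, ← Finset.sum_sub_distrib]
    have : ∑ p ∈ D, (-Real.log (n : ℝ)) ≤ ∑ p ∈ D, (gw n p - Real.log (p : ℝ)) :=
      Finset.sum_le_sum fun p hp => gw_sub_log hn0 (hDprime p hp)
    rw [Finset.sum_const, nsmul_eq_mul] at this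
    linarith
  have hV : (Real.pi / 2 - 3 * ε) * (n / Real.log n) - D.card * Real.log n ≤ δ - Lam := by
    rw [← hN]; linarith
  have hdu := card_upper n h.n2 ε hε0 (by linarith) D hDprime
  rw [← hLam] at hdu
  have hWpos : (0 : ℝ) < (n : ℝ) ^ (1 - ε) := by positivity
  have hW2 := h.W
  have hWl : (n : ℝ) ^ (1 - ε) * Real.log n * Real.log n ≤ ε * n := by
    have : (n : ℝ) ^ (1 - ε) * Real.log n * Real.log n =
      (n : ℝ) ^ (1 - ε) * Real.log n ^ 2 := by ring
    rw [this]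
    have : 0 ≤ ε * n := by positivity
    linarith
  have hW1 : (n : ℝ) ^ (1 - ε) * Real.log n ≤ ε * (1 / 900) * n := by
    have h3 : (n : ℝ) ^ (1 - ε) * Real.log n * 1 ≤
        (n : ℝ) ^ (1 - ε) * Real.log n * Real.log n :=
      mul_le_mul_of_nonneg_left hl1 (by positivity)
    have : (n : ℝ) ^ (1 - ε) * Real.log n * Real.log n =
      (n : ℝ) ^ (1 - ε) * Real.log n ^ 2 := by ring
    linarith
  by_cases hcase : 1 / 900 * n ≤ L
  · -- regime 1
    have hdl : Lam ≤ D.card * ((1 + ε) * Real.log n) := by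
      rw [hLam, ← nsmul_eq_mul]
      apply Finset.sum_le_card_nsmul
      intro p hp
      have hp1 : (p : ℝ) ≤ K * n := by exact_mod_cast (mem_Pr.1 (hDP p hp)).1
      have hp0 : (0 : ℝ) < p := by exact_mod_cast (hDprime p hp).pos
      calc Real.log p ≤ Real.log (K * n) := Real.log_le_log hp0 hp1
        _ = Real.log K + Real.log n := Real.log_mul (by positivity) (by positivity)
        _ ≤ _ := by
          have := h.logK
          rw [div_le_iff₀ hε0] at this
          linarith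
    have hlogL : (1 - ε) * Real.log n ≤ Real.log L := by
      have h1 : Real.log (1 / 900 * n) ≤ Real.log L :=
        Real.log_le_log (by positivity) hcase
      rw [Real.log_mul (by norm_num) (by positivity), one_div, Real.log_inv] at h1
      have := h.logη
      rw [div_le_iff₀ hε0] at this
      linarith
    have hbig : c0 < 1 / 900 * n * (2 * c0 - κ) / 4 := by
      have h1 := h.big
      have h2 : 3600 * c0 / (2 * c0 - κ) < n := by linarith
      rw [div_lt_iff₀ hg] at h2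
      linarith
    exact regime1 hnR rfl hl0 hε0 (by norm_num : (0 : ℝ) < 1 / 900) (by norm_num) hκ hκ2
      (by rw [hε]) hV hΛ1 hΛ2 hδup hd0 hdu hW1 hdl hcase hlogL hbig
  · push Not at hcase
    have hlogL : Real.log n / 2 ≤ Real.log L := by
      have h1 : Real.log N ≤ Real.log L := Real.log_le_log hN0 (hNδ.trans hδL)
      rw [hN, Real.log_div (by positivity) hl0.ne'] at h1
      have := log_le_half hl0
      linarith
    exact regime2 hnR rfl hl0 hε0 hε1 hκ (by linarith) hV hΛ1 hΛ2 hδL (by linarith) hd0 hdu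
      (by positivity) hWl hcase hlogL

end Q272.AbcH
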