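import Mathlib

/-! Radical divided by a log-power: definitions and the basic upper bound (MP_14cf73). -/

set_option autoImplicit false

open Finset

namespace Q272.AbcH

/-- The radical `γ(n)`: the product of the distinct primes dividing `n`. -/
def rad (n : ℕ) : ℕ := ∏ p ∈ n.primeFactors, p

/-- `H(n) = γ(n) / (log γ(n)) ^ ω(n)`. -/
noncomputable def H (n : ℕ) : ℝ := (rad n : ℝ) / Real.log (rad n : ℝ) ^ n.primeFactors.card

/-- Admissible triples: positive, `a + b = c`, `gcd(a,b,c) = 1`. -/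
def Adm (a b c : ℕ) : Prop := 0 < a ∧ 0 < b ∧ 0 < c ∧ a + b = c ∧ Nat.gcd (Nat.gcd a b) c = 1

lemma div_log_pow_mono {x y : ℝ} {m : ℕ} (hx : (m : ℝ) ≤ Real.log x) (hx0 : 0 < x)
    (hxl : 0 < Real.log x) (hxy : x ≤ y) : x / Real.log x ^ m ≤ y / Real.log y ^ m := by
  have hy0 : 0 < y := lt_of_lt_of_le hx0 hxy
  have hlog : Real.log x ≤ Real.log y := Real.log_le_log hx0 hxy
  have hyl : 0 < Real.log y := lt_of_lt_of_le hxl hlog
  rw [div_le_div_iff₀ (by positivity) (by positivity)]
  have h1 : (Real.log y / Real.log x) ^ m ≤ y / x := by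
    have h2 : Real.log y / Real.log x ≤ Real.exp ((Real.log y - Real.log x) / Real.log x) := by
      have := Real.add_one_le_exp ((Real.log y - Real.log x) / Real.log x)
      have h3 : (Real.log y - Real.log x) / Real.log x + 1 = Real.log y / Real.log x := by
        field_simp; ring
      linarith
    calc (Real.log y / Real.log x) ^ m
        ≤ (Real.exp ((Real.log y - Real.log x) / Real.log x)) ^ m :=
          pow_le_pow_left₀ (by positivity) h2 m
      _ = Real.exp (m * ((Real.log y - Real.log x) / Real.log x)) := by rw [← Real.exp_nat_mul]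
      _ ≤ Real.exp (Real.log y - Real.log x) := by
          apply Real.exp_le_exp.2
          rw [mul_div_assoc']
          rw [div_le_iff₀ hxl]
          nlinarith
      _ = y / x := by rw [Real.exp_sub, Real.exp_log hy0, Real.exp_log hx0]
  rw [div_pow, div_le_div_iff₀ (by positivity) hx0] at h1
  linarith

lemma rad_pos (n : ℕ) : 0 < rad n := by
  unfold rad
  exact Finset.prod_pos fun p hp => (Nat.prime_of_mem_primeFactors hp).pos

lemma rad_le {n : ℕ} (hn : 0 < n) : rad n ≤ n := Nat.le_of_dvd hn (Nat.prod_primeFactors_dvd n)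

/-- Upper bound for `H` of a number `(∏ D) * s` with `s` prime to `∏ D`. -/
lemma H_le (D : Finset ℕ) (hD : ∀ p ∈ D, p.Prime) (s : ℕ) (hs : 0 < s)
    (hcop : Nat.Coprime (∏ p ∈ D, p) s) (M : ℝ) (hM : (s : ℝ) ≤ M)
    (h1 : 1 ≤ Real.log ((∏ p ∈ D, p : ℕ) : ℝ))
    (hcard : (D.card : ℝ) ≤ Real.log ((∏ p ∈ D, p : ℕ) : ℝ)) :
    H ((∏ p ∈ D, p) * s) ≤
      ((∏ p ∈ D, p : ℕ) : ℝ) * M / Real.log (((∏ p ∈ D, p : ℕ) : ℝ) * M) ^ D.card := by
  set Q : ℕ := ∏ p ∈ D, p with hQ
  have hQpf : Q.primeFactors = D := Nat.primeFactors_prod hD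
  have hQ0 : 0 < Q := Finset.prod_pos fun p hp => (hD p hp).pos
  have hpf : (Q * s).primeFactors = Q.primeFactors ∪ s.primeFactors :=
    Nat.Coprime.primeFactors_mul hcop
  have hdisj : Disjoint Q.primeFactors s.primeFactors := hcop.disjoint_primeFactors
  have hradQ : ∏ p ∈ Q.primeFactors, p = Q := by rw [hQpf]
  have hrad : rad (Q * s) = Q * rad s := by
    unfold rad
    rw [hpf, Finset.prod_union hdisj, hradQ]
  have hcardm : (Q * s).primeFactors.card = D.card + s.primeFactors.card := by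
    rw [hpf, Finset.card_union_of_disjoint hdisj, hQpf]
  have hr0 : 0 < rad s := rad_pos s
  have hr1 : (1 : ℝ) ≤ (rad s : ℝ) := by exact_mod_cast hr0
  have hrM : (rad s : ℝ) ≤ M := le_trans (by exact_mod_cast rad_le hs) hM
  have hQR : (0 : ℝ) < Q := by exact_mod_cast hQ0
  have hx0 : (0 : ℝ) < (Q : ℝ) * rad s := by positivity
  have hlogx : Real.log Q ≤ Real.log ((Q : ℝ) * rad s) :=
    Real.log_le_log hQR (le_mul_of_one_le_right hQR.le hr1)
  have hl1 : 1 ≤ Real.log ((Q : ℝ) * rad s) := h1.trans hlogx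
  unfold H
  rw [hrad, hcardm]
  push_cast
  calc ((Q : ℝ) * rad s) / Real.log ((Q : ℝ) * rad s) ^ (D.card + s.primeFactors.card)
      ≤ ((Q : ℝ) * rad s) / Real.log ((Q : ℝ) * rad s) ^ D.card := by
        apply div_le_div_of_nonneg_left hx0.le (by positivity)
        exact pow_le_pow_right₀ hl1 (by omega)
    _ ≤ ((Q : ℝ) * M) / Real.log ((Q : ℝ) * M) ^ D.card :=
        div_log_pow_mono (hcard.trans hlogx) hx0 (by linarith)
          (mul_le_mul_of_nonneg_left hrM hQR.le)

/-- A set of primes with large product has at most `log (∏ D)` elements. -/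
lemma card_le_log (D : Finset ℕ) (hD : ∀ p ∈ D, p.Prime)
    (h5 : 5 ≤ Real.log ((∏ p ∈ D, p : ℕ) : ℝ)) :
    (D.card : ℝ) ≤ Real.log ((∏ p ∈ D, p : ℕ) : ℝ) := by
  have key : 2 * 3 ^ D.card ≤ 3 * ∏ p ∈ D, p := by
    by_cases h2 : 2 ∈ D
    · rw [← Finset.mul_prod_erase D (fun p => p) h2, ← Finset.card_erase_add_one h2]
      have : 3 ^ (D.erase 2).card ≤ ∏ p ∈ D.erase 2, p := by
        apply Finset.pow_card_le_prod
        intro p hp
        have hp' := Finset.mem_erase.1 hp
        have := (hD p hp'.2).two_le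
        have := hp'.1
        omega
      rw [pow_succ]
      nlinarith
    · have : 3 ^ D.card ≤ ∏ p ∈ D, p := by
        apply Finset.pow_card_le_prod
        intro p hp
        have h := (hD p hp).two_le
        have : p ≠ 2 := fun h => h2 (h ▸ hp)
        omega
      generalize (∏ p ∈ D, p) = P at this
      generalize 3 ^ D.card = X at this
      omega
  have hpos : (0 : ℝ) < ((∏ p ∈ D, p : ℕ) : ℝ) := by
    exact_mod_cast Finset.prod_pos fun p hp => (hD p hp).pos
  have key' : (2 : ℝ) * 3 ^ D.card ≤ 3 * ((∏ p ∈ D, p : ℕ) : ℝ) := by exact_mod_cast key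
  have hl := Real.log_le_log (by positivity) key'
  rw [Real.log_mul (by norm_num) (by positivity), Real.log_mul (by norm_num) hpos.ne',
    Real.log_pow] at hl
  have h3 : (1.0986 : ℝ) < Real.log 3 := by
    have := Real.log_three_gt_d9
    linarith
  have h3' : Real.log 3 < (1.0987 : ℝ) := by
    have := Real.log_three_lt_d9
    linarith
  have h2 : (0.6931 : ℝ) < Real.log 2 := by
    have := Real.log_two_gt_d9
    linarith
  nlinarith

end Q272.AbcH
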