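import Pool.Agent.Q272.AbcH.Basic

/-! Weighted pigeonhole for products of subsets of a finite set of primes. -/

set_option autoImplicit false

open Finset

namespace Q272.AbcH

lemma pigeon (P : Finset ℕ) (g lg : ℕ → ℝ) (hg : ∀ p ∈ P, 0 ≤ g p)
    (hlg : ∀ p ∈ P, 0 ≤ lg p)
    (J : ℕ) (hJ : 2 * ∑ p ∈ P, g p < J) (Θ : ℝ) (hΘ0 : 0 < Θ)
    (hΘ : ∑ p ∈ P, lg p ≤ Θ) (Z : ℝ) (hZ : Z = ∏ p ∈ P, (1 + Real.exp (-(2 * g p))))
    (hZJ : 2 * (J : ℝ) < Z) :
    ∃ (j : ℕ) (S T : Finset ℕ), S ⊆ P ∧ T ⊆ P ∧ S ≠ T ∧ (j : ℝ) ≤ 2 * ∑ p ∈ S, g p ∧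
      2 * ∑ p ∈ S, g p < j + 1 ∧ 2 * ∑ p ∈ T, g p < j + 1 ∧
      0 ≤ ∑ p ∈ T, lg p - ∑ p ∈ S, lg p ∧
      ∑ p ∈ T, lg p - ∑ p ∈ S, lg p ≤ 2 * J * Θ / (Real.exp j * Z) := by
  classical
  have hGnn : ∀ S ∈ P.powerset, 0 ≤ 2 * ∑ p ∈ S, g p := by
    intro S hS
    have := Finset.sum_nonneg fun p hp => hg p (Finset.mem_powerset.1 hS hp)
    linarith
  have hGle : ∀ S ∈ P.powerset, 2 * ∑ p ∈ S, g p < J := by
    intro S hS
    have := Finset.sum_le_sum_of_subset_of_nonneg (Finset.mem_powerset.1 hS)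
      (f := g) (fun p hp _ => hg p hp)
    linarith
  have hJ0 : (0 : ℝ) < J := lt_of_le_of_lt (hGnn P (by simp)) hJ
  have hsumZ : ∑ S ∈ P.powerset, Real.exp (-(2 * ∑ p ∈ S, g p)) = Z := by
    rw [hZ, Finset.prod_one_add]
    refine Finset.sum_congr rfl fun S _ => ?_
    rw [← Real.exp_sum, Finset.mul_sum, Finset.sum_neg_distrib]
  have hZ0 : 0 < Z := by linarith
  -- choose the class
  obtain ⟨j, hjJ, hj⟩ : ∃ j ∈ Finset.range J, Z / J ≤
      ∑ S ∈ P.powerset.filter (fun S => ⌊2 * ∑ p ∈ S, g p⌋₊ = j),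
        Real.exp (-(2 * ∑ p ∈ S, g p)) := by
    by_contra hcon
    push Not at hcon
    have hfib := Finset.sum_fiberwise_of_maps_to (s := P.powerset) (t := Finset.range J)
      (g := fun S => ⌊2 * ∑ p ∈ S, g p⌋₊) (fun S hS => by
        rw [Finset.mem_range]
        exact (Nat.floor_lt (hGnn S hS)).2 (hGle S hS))
      (fun S => Real.exp (-(2 * ∑ p ∈ S, g p)))
    have hne : (Finset.range J).Nonempty := by
      rw [Finset.nonempty_range_iff]
      intro h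
      rw [h] at hJ0
      simp at hJ0
    have hlt := Finset.sum_lt_sum_of_nonempty hne hcon
    rw [hfib, hsumZ] at hlt
    simp only [Finset.sum_const, Finset.card_range, nsmul_eq_mul] at hlt
    rw [mul_div_cancel₀ _ hJ0.ne'] at hlt
    exact lt_irrefl _ hlt
  set F := P.powerset.filter (fun S => ⌊2 * ∑ p ∈ S, g p⌋₊ = j) with hF
  have hFj : ∀ S ∈ F, (j : ℝ) ≤ 2 * ∑ p ∈ S, g p ∧ 2 * ∑ p ∈ S, g p < j + 1 := by
    intro S hS
    rw [hF, Finset.mem_filter] at hS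
    have := (Nat.floor_eq_iff (hGnn S hS.1)).1 hS.2
    exact this
  have hcard : Real.exp j * Z / J ≤ F.card := by
    have h1 : ∑ S ∈ F, Real.exp (-(2 * ∑ p ∈ S, g p)) ≤ ∑ S ∈ F, Real.exp (-(j : ℝ)) := by
      refine Finset.sum_le_sum fun S hS => Real.exp_le_exp.2 ?_
      have := (hFj S hS).1
      linarith
    have h2 := hj.trans h1
    rw [Finset.sum_const, nsmul_eq_mul, Real.exp_neg, ← div_eq_mul_inv,
      le_div_iff₀ (Real.exp_pos _)] at h2
    calc Real.exp j * Z / J = Z / J * Real.exp j := by ring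
      _ ≤ _ := h2
  -- boxes
  set ε : ℝ := 2 * J * Θ / (Real.exp j * Z) with hε
  have hε0 : 0 < ε := by positivity
  have hΘε : Θ / ε = Real.exp j * Z / (2 * J) := by
    rw [hε]; field_simp
  have hexp1 : 1 ≤ Real.exp (j : ℝ) := Real.one_le_exp (by positivity)
  have hbig : 1 < Real.exp j * Z / (2 * J) := by
    rw [lt_div_iff₀ (by positivity)]
    nlinarith
  have hcount : (Finset.range (⌊Θ / ε⌋₊ + 1)).card < F.card := by
    rw [Finset.card_range]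
    have h1 : ((⌊Θ / ε⌋₊ : ℝ)) ≤ Θ / ε := Nat.floor_le (by positivity)
    have h2 : Real.exp j * Z / J = Real.exp j * Z / (2 * J) + Real.exp j * Z / (2 * J) := by
      field_simp; ring
    have : ((⌊Θ / ε⌋₊ + 1 : ℕ) : ℝ) < F.card := by
      push_cast
      rw [hΘε] at h1 ⊢
      linarith
    exact_mod_cast this
  have hlgS : ∀ S ∈ F, 0 ≤ ∑ p ∈ S, lg p ∧ ∑ p ∈ S, lg p ≤ Θ := by
    intro S hS
    rw [hF, Finset.mem_filter, Finset.mem_powerset] at hS
    refine ⟨Finset.sum_nonneg fun p hp => hlg p (hS.1 hp), le_trans ?_ hΘ⟩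
    exact Finset.sum_le_sum_of_subset_of_nonneg hS.1 (fun p hp _ => hlg p hp)
  obtain ⟨S, hS, T, hT, hne, heq⟩ := Finset.exists_ne_map_eq_of_card_lt_of_maps_to hcount
    (f := fun S => ⌊(∑ p ∈ S, lg p) / ε⌋₊) (fun S hS => by
      simp only [Finset.coe_range, Set.mem_Iio]
      have := hlgS S (by simpa using hS)
      exact Nat.lt_succ_of_le (Nat.floor_le_floor (div_le_div_of_nonneg_right this.2 hε0.le)))
  have hclose : |(∑ p ∈ T, lg p) / ε - (∑ p ∈ S, lg p) / ε| < 1 := by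
    have hs0 : 0 ≤ (∑ p ∈ S, lg p) / ε := div_nonneg (hlgS S hS).1 hε0.le
    have ht0 : 0 ≤ (∑ p ∈ T, lg p) / ε := div_nonneg (hlgS T hT).1 hε0.le
    have a1 := Nat.floor_le hs0
    have a2 := Nat.lt_floor_add_one ((∑ p ∈ S, lg p) / ε)
    have b1 := Nat.floor_le ht0
    have b2 := Nat.lt_floor_add_one ((∑ p ∈ T, lg p) / ε)
    rw [heq] at a1 a2
    rw [abs_lt]
    constructor <;> linarith
  have hclose' : |∑ p ∈ T, lg p - ∑ p ∈ S, lg p| ≤ ε := by
    rw [← sub_div, abs_div, abs_of_pos hε0, div_lt_one hε0] at hclose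
    exact hclose.le
  have hSP : S ⊆ P := by
    rw [hF, Finset.mem_filter, Finset.mem_powerset] at hS; exact hS.1
  have hTP : T ⊆ P := by
    rw [hF, Finset.mem_filter, Finset.mem_powerset] at hT; exact hT.1
  rcases le_total (∑ p ∈ S, lg p) (∑ p ∈ T, lg p) with h | h
  · exact ⟨j, S, T, hSP, hTP, hne, (hFj S hS).1, (hFj S hS).2, (hFj T hT).2, by linarith,
      (abs_le.1 hclose').2⟩
  · refine ⟨j, T, S, hTP, hSP, hne.symm, (hFj T hT).1, (hFj T hT).2, (hFj S hS).2, by linarith,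
      ?_⟩
    have := (abs_le.1 hclose').1
    linarith

end Q272.AbcH
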