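import Pool.Agent.Q272.AbcH.Pigeon

/-! From two close subset products to an admissible triple. -/

set_option autoImplicit false

open Finset

namespace Q272.AbcH

lemma log_prod_primes (D : Finset ℕ) (hD : ∀ p ∈ D, p.Prime) :
    Real.log ((∏ p ∈ D, p : ℕ) : ℝ) = ∑ p ∈ D, Real.log p := by
  push_cast
  exact Real.log_prod fun p hp => by
    have := (hD p hp).pos
    positivity

lemma triple (P : Finset ℕ) (hP : ∀ p ∈ P, p.Prime) (S T : Finset ℕ) (hS : S ⊆ P) (hT : T ⊆ P)
    (hne : S ≠ T) (δ : ℝ) (hδ : 5 ≤ δ)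
    (h0 : 0 ≤ ∑ p ∈ T, Real.log (p : ℝ) - ∑ p ∈ S, Real.log (p : ℝ))
    (hcl : ∑ p ∈ T, Real.log (p : ℝ) - ∑ p ∈ S, Real.log (p : ℝ) ≤ Real.exp (-δ)) :
    ∃ a b c : ℕ, Adm a b c ∧ δ ≤ Real.log c ∧
      2 * Real.log c - 1 ≤ ∑ p ∈ (S \ T) ∪ (T \ S), Real.log (p : ℝ) ∧
      ∑ p ∈ (S \ T) ∪ (T \ S), Real.log (p : ℝ) ≤ 2 * Real.log c ∧
      H (a * b * c) ≤ Real.exp (Real.log c - (δ - ∑ p ∈ (S \ T) ∪ (T \ S), Real.log (p : ℝ) +
        ((S \ T) ∪ (T \ S)).card *
          Real.log (∑ p ∈ (S \ T) ∪ (T \ S), Real.log (p : ℝ) + Real.log c - δ))) := by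
  classical
  set A : ℕ := ∏ p ∈ S \ T, p with hA
  set B : ℕ := ∏ p ∈ T \ S, p with hB
  have hSp : ∀ p ∈ S \ T, p.Prime := fun p hp => hP p (hS (Finset.mem_sdiff.1 hp).1)
  have hTp : ∀ p ∈ T \ S, p.Prime := fun p hp => hP p (hT (Finset.mem_sdiff.1 hp).1)
  have hDp : ∀ p ∈ (S \ T) ∪ (T \ S), p.Prime := by
    intro p hp
    rcases Finset.mem_union.1 hp with h | h
    · exact hSp p h
    · exact hTp p h
  have hdisj : Disjoint (S \ T) (T \ S) := by
    rw [Finset.disjoint_left]
    intro p h1 h2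
    exact (Finset.mem_sdiff.1 h2).2 (Finset.mem_sdiff.1 h1).1
  have hA0 : 0 < A := Finset.prod_pos fun p hp => (hSp p hp).pos
  have hB0 : 0 < B := Finset.prod_pos fun p hp => (hTp p hp).pos
  have hAR : (0 : ℝ) < A := by exact_mod_cast hA0
  have hBR : (0 : ℝ) < B := by exact_mod_cast hB0
  have hlA : Real.log A = ∑ p ∈ S \ T, Real.log (p : ℝ) := log_prod_primes _ hSp
  have hlB : Real.log B = ∑ p ∈ T \ S, Real.log (p : ℝ) := log_prod_primes _ hTp
  have hdiff : ∑ p ∈ T, Real.log (p : ℝ) - ∑ p ∈ S, Real.log (p : ℝ) =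
      Real.log B - Real.log A := by
    rw [hlA, hlB]
    exact (Finset.sum_sdiff_sub_sum_sdiff (s₁ := S) (s₂ := T)
      (f := fun p : ℕ => Real.log (p : ℝ))).symm
  rw [hdiff] at h0 hcl
  have hcop : Nat.Coprime A B := by
    rw [hA, hB]
    apply Nat.Coprime.prod_left
    intro p hp
    apply Nat.Coprime.prod_right
    intro q hq
    rw [Nat.coprime_primes (hSp p hp) (hTp q hq)]
    rintro rfl
    exact (Finset.disjoint_left.1 hdisj) hp hq
  have hABne : A ≠ B := by
    intro h
    rw [h, Nat.coprime_self] at hcop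
    have hA1 : A = 1 := h.trans hcop
    apply hne
    have e1 : S \ T = ∅ := by
      by_contra hh
      obtain ⟨p, hp⟩ := Finset.nonempty_iff_ne_empty.2 hh
      have : p ∣ A := Finset.dvd_prod_of_mem _ hp
      rw [hA1] at this
      exact (hSp p hp).one_lt.ne' (Nat.dvd_one.1 this)
    have e2 : T \ S = ∅ := by
      by_contra hh
      obtain ⟨p, hp⟩ := Finset.nonempty_iff_ne_empty.2 hh
      have : p ∣ B := Finset.dvd_prod_of_mem _ hp
      rw [hcop] at this
      exact (hTp p hp).one_lt.ne' (Nat.dvd_one.1 this)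
    rw [Finset.sdiff_eq_empty_iff_subset] at e1 e2
    exact Finset.Subset.antisymm e1 e2
  have hAB : A < B := by
    rcases lt_or_gt_of_ne hABne with h | h
    · exact h
    · exfalso
      have : Real.log B < Real.log A := Real.log_lt_log hBR (by exact_mod_cast h)
      linarith
  have hABle : ((B - A : ℕ) : ℝ) ≤ B * Real.exp (-δ) := by
    rw [Nat.cast_sub hAB.le]
    have h1 : 1 - (A : ℝ) / B ≤ Real.log B - Real.log A := by
      have := Real.one_sub_inv_le_log_of_pos (x := (B : ℝ) / A) (by positivity)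
      rw [inv_div, Real.log_div hBR.ne' hAR.ne'] at this
      exact this
    have h2 : (B : ℝ) - A = B * (1 - A / B) := by field_simp
    rw [h2]
    exact mul_le_mul_of_nonneg_left (h1.trans hcl) hBR.le
  have hexpB : Real.exp δ ≤ B := by
    have h1 : (1 : ℝ) ≤ ((B - A : ℕ) : ℝ) := by
      have : 1 ≤ B - A := by omega
      exact_mod_cast this
    have h2 := h1.trans hABle
    rw [Real.exp_neg, ← div_eq_mul_inv, le_div_iff₀ (Real.exp_pos _), one_mul] at h2
    exact h2
  have hδL : δ ≤ Real.log B := by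
    rw [← Real.log_exp δ]
    exact Real.log_le_log (Real.exp_pos _) hexpB
  have hΛ : ∑ p ∈ (S \ T) ∪ (T \ S), Real.log (p : ℝ) = Real.log A + Real.log B := by
    rw [Finset.sum_union hdisj, hlA, hlB]
  have hexp1 : Real.exp (-δ) ≤ 1 := Real.exp_le_one_iff.2 (by linarith)
  have hprod : ∏ p ∈ (S \ T) ∪ (T \ S), p = A * B := Finset.prod_union hdisj
  have hlogAB : Real.log ((∏ p ∈ (S \ T) ∪ (T \ S), p : ℕ) : ℝ) = Real.log A + Real.log B := by
    rw [log_prod_primes _ hDp, hΛ]
  have hΛ5 : 5 ≤ Real.log A + Real.log B := by linarith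
  refine ⟨A, B - A, B, ⟨hA0, by omega, hB0, by omega, ?_⟩, hδL, ?_, ?_, ?_⟩
  · have : Nat.gcd A (B - A) = 1 := by
      have := (Nat.coprime_sub_self_right hAB.le).2 hcop
      exact this
    rw [this]; simp
  · rw [hΛ]; linarith
  · rw [hΛ]; linarith
  · have hc1 : Nat.Coprime A (B - A) := (Nat.coprime_sub_self_right hAB.le).2 hcop
    have hc2 : Nat.Coprime B (B - A) := by
      have h := (Nat.coprime_sub_self_left (m := A) (n := B) hAB.le).2 hcop.symm
      have h3 : Nat.Coprime (B - A) A := hc1.symm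
      have : Nat.Coprime (B - A) (A + (B - A)) := by
        simpa using h3
      rw [show A + (B - A) = B by omega] at this
      exact this.symm
    have hcopD : Nat.Coprime (∏ p ∈ (S \ T) ∪ (T \ S), p) (B - A) := by
      rw [hprod]
      exact Nat.Coprime.mul_left hc1 hc2
    have hmain := H_le ((S \ T) ∪ (T \ S)) hDp (B - A) (by omega) hcopD (B * Real.exp (-δ))
      hABle (by rw [hlogAB]; linarith) (card_le_log _ hDp (by rw [hlogAB]; exact hΛ5))
    have e : A * (B - A) * B = (∏ p ∈ (S \ T) ∪ (T \ S), p) * (B - A) := by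
      rw [hprod]; ring
    rw [e]
    refine hmain.trans (le_of_eq ?_)
    rw [hprod]
    push_cast
    have hABpos : (0 : ℝ) < (A : ℝ) * B := by positivity
    have hMpos : (0 : ℝ) < B * Real.exp (-δ) := by positivity
    have hlM : Real.log (A * B * (B * Real.exp (-δ))) =
        Real.log A + Real.log B + Real.log B - δ := by
      rw [Real.log_mul hABpos.ne' hMpos.ne', Real.log_mul hAR.ne' hBR.ne',
        Real.log_mul hBR.ne' (Real.exp_pos _).ne', Real.log_exp]
      ring
    rw [hlM, hΛ]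
    set u := Real.log A + Real.log B + Real.log B - δ with hu
    have hupos : 0 < u := by rw [hu]; linarith
    rw [show Real.log B - (δ - (Real.log A + Real.log B) +
        (((S \ T) ∪ (T \ S)).card : ℝ) * Real.log u) =
        (Real.log A + Real.log B) + (Real.log B + -δ) -
          (((S \ T) ∪ (T \ S)).card : ℝ) * Real.log u by ring]
    rw [Real.exp_sub, Real.exp_add, Real.exp_add, Real.exp_add, Real.exp_log hAR,
      Real.exp_log hBR, mul_comm (((S \ T) ∪ (T \ S)).card : ℝ), Real.exp_mul, Real.exp_log hupos,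
      Real.rpow_natCast]

end Q272.AbcH
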