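import Mathlib
import Pool.Agent.Helper923.PNT

/-! Lower bound for `∑_{p ≤ K n} log (1 + min(1, (n/p)^2))`. -/

set_option autoImplicit false

open Finset Filter Topology

namespace Q272.AbcH

/-- primes up to `M` -/
def Pr (M : ℕ) : Finset ℕ := (Finset.Icc 1 M).filter Nat.Prime

lemma mem_Pr {M p : ℕ} : p ∈ Pr M ↔ p ≤ M ∧ p.Prime := by
  unfold Pr
  rw [Finset.mem_filter, Finset.mem_Icc]
  constructor
  · rintro ⟨⟨_, h⟩, hp⟩; exact ⟨h, hp⟩
  · rintro ⟨h, hp⟩; exact ⟨⟨hp.one_lt.le, h⟩, hp⟩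

lemma sum_Pr_succ (M : ℕ) (f : ℕ → ℝ) :
    ∑ p ∈ Pr (M + 1), f p = ∑ p ∈ Pr M, f p + if (M + 1).Prime then f (M + 1) else 0 := by
  unfold Pr
  rw [← Finset.insert_Icc_right_eq_Icc_add_one (by omega), Finset.filter_insert]
  split_ifs with h
  · rw [Finset.sum_insert (by simp)]
    ring
  · simp

lemma card_Pr (M : ℕ) : (Pr M).card = Nat.primeCounting M := by
  induction M with
  | zero => simp [Pr]
  | succ M ih =>
    have h := sum_Pr_succ M (fun _ => 1)
    simp only [Finset.sum_const, nsmul_eq_mul, mul_one] at h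
    have h2 : Nat.primeCounting (M + 1) = Nat.primeCounting M + if (M + 1).Prime then 1 else 0 := by
      unfold Nat.primeCounting Nat.primeCounting'
      rw [Nat.count_succ]
    rw [h2, ← ih]
    have : (((Pr (M + 1)).card : ℕ) : ℝ) =
        (((Pr M).card + if (M + 1).Prime then 1 else 0 : ℕ) : ℝ) := by
      rw [h]; push_cast; split_ifs <;> simp
    exact_mod_cast this

/-- the weight exponent -/
noncomputable def gw (n p : ℕ) : ℝ := if p ≤ n then 0 else Real.log ((p : ℝ) / n)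

lemma gw_nonneg (n p : ℕ) : 0 ≤ gw n p := by
  unfold gw
  split_ifs with h
  · exact le_rfl
  · rcases Nat.eq_zero_or_pos n with rfl | hn
    · simp
    · apply Real.log_nonneg
      rw [le_div_iff₀ (by positivity)]
      have : n ≤ p := by omega
      have : (n : ℝ) ≤ p := by exact_mod_cast this
      linarith

noncomputable def hw (n m : ℕ) : ℝ := Real.log (1 + Real.exp (-(2 * gw n m)))

lemma hw_nonneg (n m : ℕ) : 0 ≤ hw n m := by
  unfold hw
  apply Real.log_nonneg
  have := Real.exp_pos (-(2 * gw n m))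
  linarith

lemma hw_of_le {n m : ℕ} (h : m ≤ n) : hw n m = Real.log 2 := by
  unfold hw gw
  rw [if_pos h]
  norm_num

lemma hw_of_ge {n m : ℕ} (hn : 0 < n) (h : n ≤ m) :
    hw n m = Real.log (1 + (((m : ℝ) / n) ^ 2)⁻¹) := by
  unfold hw gw
  have hm : 0 < m := by omega
  split_ifs with h1
  · have : m = n := by omega
    subst this
    have : (m : ℝ) ≠ 0 := by positivity
    simp [this]
  · congr 2
    rw [Real.exp_neg, mul_comm, Real.exp_mul, Real.exp_log (by positivity)]
    norm_num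

lemma hw_anti {n : ℕ} (hn : 0 < n) {a b : ℕ} (hna : n ≤ a) (hab : a ≤ b) : hw n b ≤ hw n a := by
  rw [hw_of_ge hn hna, hw_of_ge hn (hna.trans hab)]
  have ha : 0 < a := by omega
  have hb : 0 < b := by omega
  apply Real.log_le_log (by positivity)
  gcongr

lemma partial_sum (n : ℕ) (hn : 0 < n) (lam : ℝ) (M : ℕ) (hM : n ≤ M)
    (hl : ∀ m, n ≤ m → m ≤ M → lam * m ≤ Nat.primeCounting m) :
    lam * (n * Real.log 2 + ∑ m ∈ Finset.Ioc n M, hw n m) +
      (Nat.primeCounting M - lam * M) * hw n M ≤ ∑ p ∈ Pr M, hw n p := by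
  induction M, hM using Nat.le_induction with
  | base =>
    have h1 : ∑ p ∈ Pr n, hw n p = (Nat.primeCounting n : ℝ) * Real.log 2 := by
      rw [Finset.sum_congr rfl (fun p hp => hw_of_le (mem_Pr.1 hp).1), Finset.sum_const, card_Pr]
      simp
    rw [h1, hw_of_le le_rfl]
    simp only [Finset.Ioc_self, Finset.sum_empty, add_zero]
    nlinarith
  | succ M hM ih =>
    have ih' := ih (fun m h1 h2 => hl m h1 (h2.trans (Nat.le_succ M)))
    have hM' := hl M hM (Nat.le_succ M)
    rw [sum_Pr_succ]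
    have hs : ∑ m ∈ Finset.Ioc n (M + 1), hw n m = ∑ m ∈ Finset.Ioc n M, hw n m + hw n (M + 1) := by
      rw [← Finset.insert_Ioc_right_eq_Ioc_add_one hM, Finset.sum_insert (by simp)]
      ring
    have hc : Nat.primeCounting (M + 1) = Nat.primeCounting M + if (M + 1).Prime then 1 else 0 := by
      unfold Nat.primeCounting Nat.primeCounting'
      rw [Nat.count_succ]
    have hanti := hw_anti hn hM (Nat.le_succ M)
    have hnn := hw_nonneg n (M + 1)
    rw [hs, hc]
    push_cast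
    split_ifs with hp
    · nlinarith
    · nlinarith

noncomputable def Fa (v : ℝ) : ℝ := v * Real.log (1 + (v ^ 2)⁻¹) + 2 * Real.arctan v

lemma hasDerivAt_Fa {v : ℝ} (hv : 0 < v) :
    HasDerivAt Fa (Real.log (1 + (v ^ 2)⁻¹)) v := by
  have h1 : HasDerivAt (fun v : ℝ => 1 + (v ^ 2)⁻¹) (-(2 * v) / (v ^ 2) ^ 2) v := by
    have h := ((hasDerivAt_pow 2 v).inv (by positivity)).const_add 1
    refine h.congr_deriv ?_
    simp
  have h2 := h1.log (by positivity)
  have h3 := (hasDerivAt_id v).mul h2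
  have h4 := (Real.hasDerivAt_arctan v).const_mul 2
  have h5 := h3.add h4
  refine h5.congr_deriv ?_
  simp only [id_eq]
  field_simp
  ring

lemma step_Fa {a b : ℝ} (ha : 0 < a) (hab : a < b) :
    Fa b - Fa a ≤ (b - a) * Real.log (1 + (a ^ 2)⁻¹) := by
  obtain ⟨c, hc, hc'⟩ := exists_hasDerivAt_eq_slope Fa (fun v => Real.log (1 + (v ^ 2)⁻¹)) hab
    (fun x hx => (hasDerivAt_Fa (lt_of_lt_of_le ha hx.1)).continuousAt.continuousWithinAt)
    (fun x hx => hasDerivAt_Fa (ha.trans hx.1))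
  have hba : 0 < b - a := by linarith
  rw [eq_div_iff hba.ne'] at hc'
  rw [← hc', mul_comm]
  apply mul_le_mul_of_nonneg_left _ hba.le
  have : 0 < c := ha.trans hc.1
  apply Real.log_le_log (by positivity)
  have := hc.1.le
  gcongr

lemma sum_hw_ge (n : ℕ) (hn : 0 < n) (M : ℕ) (hM : n ≤ M) :
    n * (Fa (((M + 1 : ℕ) : ℝ) / n) - Fa (((n + 1 : ℕ) : ℝ) / n)) ≤
      ∑ m ∈ Finset.Ioc n M, hw n m := by
  induction M, hM using Nat.le_induction with
  | base => simp
  | succ M hM ih =>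
    have hs : ∑ m ∈ Finset.Ioc n (M + 1), hw n m = ∑ m ∈ Finset.Ioc n M, hw n m + hw n (M + 1) := by
      rw [← Finset.insert_Ioc_right_eq_Ioc_add_one hM, Finset.sum_insert (by simp)]
      ring
    rw [hs, hw_of_ge hn (by omega : n ≤ M + 1)]
    have hnR : (0 : ℝ) < n := by exact_mod_cast hn
    have hst := step_Fa (a := ((M + 1 : ℕ) : ℝ) / n) (b := ((M + 1 + 1 : ℕ) : ℝ) / n)
      (by positivity) (by
        apply div_lt_div_of_pos_right _ hnR
        push_cast; linarith)
    have e : ((M + 1 + 1 : ℕ) : ℝ) / n - ((M + 1 : ℕ) : ℝ) / n = 1 / n := by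
      push_cast; field_simp; ring
    rw [e] at hst
    have hst2 := mul_le_mul_of_nonneg_left hst hnR.le
    have e2 : (n : ℝ) * (1 / n * Real.log (1 + ((((M + 1 : ℕ) : ℝ) / n) ^ 2)⁻¹)) =
        Real.log (1 + ((((M + 1 : ℕ) : ℝ) / n) ^ 2)⁻¹) := by
      field_simp
    rw [e2] at hst2
    linarith

lemma tendsto_log_ratio (K : ℕ) (hK : 0 < K) :
    Tendsto (fun n : ℕ => Real.log n / Real.log ((K * n : ℕ) : ℝ)) atTop (𝓝 1) := by
  have hlog : Tendsto (fun n : ℕ => Real.log (n : ℝ)) atTop atTop :=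
    Real.tendsto_log_atTop.comp tendsto_natCast_atTop_atTop
  have h1 : Tendsto (fun n : ℕ => Real.log K * (Real.log (n : ℝ))⁻¹ + 1) atTop (𝓝 1) := by
    have := (tendsto_inv_atTop_zero.comp hlog).const_mul (Real.log K)
    have := this.add_const 1
    simpa using this
  have h2 := h1.inv₀ (by norm_num)
  rw [inv_one] at h2
  refine h2.congr' ?_
  filter_upwards [eventually_gt_atTop 1] with n hn
  have hl : 0 < Real.log (n : ℝ) := Real.log_pos (by exact_mod_cast hn)
  have hn0 : (n : ℝ) ≠ 0 := by positivity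
  have hK0 : (K : ℝ) ≠ 0 := by positivity
  push_cast
  rw [Real.log_mul hK0 hn0]
  rw [← one_div, div_eq_div_iff]
  · field_simp
  · have : 0 ≤ Real.log (K : ℝ) := Real.log_nonneg (by exact_mod_cast hK)
    positivity
  · have : 0 ≤ Real.log (K : ℝ) := Real.log_nonneg (by exact_mod_cast hK)
    positivity

lemma logZ_lower (ε : ℝ) (hε : 0 < ε) : ∃ K : ℕ, 2 ≤ K ∧ ∀ᶠ n : ℕ in atTop,
    (Real.pi / 2 - ε) * (n / Real.log n) ≤ ∑ p ∈ Pr (K * n), hw n p := by
  -- choose K
  have hK : Tendsto (fun K : ℕ => 2 * Real.arctan (K : ℝ) - Real.pi / 2) atTop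
      (𝓝 (2 * (Real.pi / 2) - Real.pi / 2)) := by
    have := (tendsto_nhds_of_tendsto_nhdsWithin Real.tendsto_arctan_atTop).comp
      (tendsto_natCast_atTop_atTop (R := ℝ))
    exact (this.const_mul 2).sub_const _
  have hK2 := (hK.eventually_const_lt (show Real.pi / 2 - ε / 2 < 2 * (Real.pi / 2) - Real.pi / 2 by
    linarith)).and (eventually_ge_atTop 2)
  obtain ⟨K, hK1, hK2⟩ := hK2.exists
  refine ⟨K, hK2, ?_⟩
  set X := 2 * Real.arctan (K : ℝ) - Real.pi / 2 with hX
  have hXlt : X ≤ 2 := by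
    have := Real.arctan_lt_pi_div_two (K : ℝ)
    have := Real.pi_lt_four
    linarith
  -- the limit
  set ε' : ℝ := min (ε / 8) (1 / 2) with hε'
  have hε'0 : 0 < ε' := by positivity
  have hpi : ∀ᶠ x : ℝ in atTop, 1 - ε' < (Nat.primeCounting ⌊x⌋₊ : ℝ) * Real.log x / x :=
    Pool.Agent.Helper923.PNT.pi_tendsto.eventually_const_lt (by linarith)
  obtain ⟨x0, hx0⟩ := eventually_atTop.1 hpi
  have hlim : Tendsto (fun n : ℕ => (1 - ε') * (Real.log n / Real.log ((K * n : ℕ) : ℝ)) *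
      (Real.log 2 + 2 * Real.arctan K - Fa (((n + 1 : ℕ) : ℝ) / n))) atTop
      (𝓝 ((1 - ε') * 1 * (Real.log 2 + 2 * Real.arctan K - Fa 1))) := by
    refine ((tendsto_log_ratio K (by omega)).const_mul (1 - ε')).mul ?_
    refine Tendsto.const_sub _ ?_
    have h1 : Tendsto (fun n : ℕ => ((n + 1 : ℕ) : ℝ) / n) atTop (𝓝 1) := by
      have := tendsto_one_div_atTop_nhds_zero_nat (𝕜 := ℝ)
      have h2 := this.const_add 1
      rw [add_zero] at h2
      refine h2.congr' ?_
      filter_upwards [eventually_gt_atTop 0] with n hn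
      have : (n : ℝ) ≠ 0 := by positivity
      push_cast
      field_simp
    exact ((hasDerivAt_Fa one_pos).continuousAt.tendsto).comp h1
  have hFa1 : Fa 1 = Real.log 2 + Real.pi / 2 := by
    unfold Fa
    rw [Real.arctan_one]
    norm_num
    ring
  have hval : Real.pi / 2 - ε < (1 - ε') * 1 * (Real.log 2 + 2 * Real.arctan K - Fa 1) := by
    have e : (1 - ε') * 1 * (Real.log 2 + 2 * Real.arctan K - Fa 1) = (1 - ε') * X := by
      rw [hFa1, hX]; ring
    rw [e]
    have : ε' ≤ ε / 8 := min_le_left _ _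
    nlinarith
  filter_upwards [hlim.eventually_const_lt hval, eventually_gt_atTop 1,
    eventually_ge_atTop ⌈x0⌉₊] with n hn hn1 hnx
  have hn0 : 0 < n := by omega
  have hnR : (1 : ℝ) < n := by exact_mod_cast hn1
  have hln : 0 < Real.log (n : ℝ) := Real.log_pos hnR
  have hnK : n ≤ K * n := by nlinarith
  have hlK : 0 < Real.log ((K * n : ℕ) : ℝ) := by
    apply Real.log_pos
    have : 1 < K * n := by nlinarith
    exact_mod_cast this
  set lam : ℝ := (1 - ε') / Real.log ((K * n : ℕ) : ℝ) with hlam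
  have h1e : 0 < 1 - ε' := by
    have : ε' ≤ 1 / 2 := min_le_right _ _
    linarith
  have hlam0 : 0 < lam := by positivity
  have hcond : ∀ m, n ≤ m → m ≤ K * n → lam * m ≤ Nat.primeCounting m := by
    intro m h1 h2
    have hm0 : (0 : ℝ) < m := by exact_mod_cast (by omega : 0 < m)
    have hm1 : (1 : ℝ) < m := by exact_mod_cast (by omega : 1 < m)
    have := hx0 m ((Nat.ceil_le.1 hnx).trans (by exact_mod_cast h1))
    rw [Nat.floor_natCast, lt_div_iff₀ hm0] at this
    have hlm : 0 < Real.log (m : ℝ) := Real.log_pos hm1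
    have hlm2 : Real.log (m : ℝ) ≤ Real.log ((K * n : ℕ) : ℝ) :=
      Real.log_le_log hm0 (by exact_mod_cast h2)
    rw [hlam, div_mul_eq_mul_div, div_le_iff₀ hlK]
    have hpc : (0 : ℝ) ≤ Nat.primeCounting m := by positivity
    nlinarith [mul_le_mul_of_nonneg_left hlm2 hpc]
  have hps := partial_sum n hn0 lam (K * n) hnK hcond
  have hlast := hcond (K * n) hnK le_rfl
  have hF := sum_hw_ge n hn0 (K * n) hnK
  have hFK : 2 * Real.arctan (K : ℝ) ≤ Fa (((K * n + 1 : ℕ) : ℝ) / n) := by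
    unfold Fa
    have h1 : (K : ℝ) ≤ ((K * n + 1 : ℕ) : ℝ) / n := by
      rw [le_div_iff₀ (by positivity)]
      push_cast; linarith
    have h2 : Real.arctan (K : ℝ) ≤ Real.arctan (((K * n + 1 : ℕ) : ℝ) / n) :=
      Real.arctan_mono h1
    have h3 : 0 ≤ ((K * n + 1 : ℕ) : ℝ) / n *
        Real.log (1 + ((((K * n + 1 : ℕ) : ℝ) / n) ^ 2)⁻¹) := by
      apply mul_nonneg (by positivity)
      apply Real.log_nonneg
      have : 0 ≤ ((((K * n + 1 : ℕ) : ℝ) / n) ^ 2)⁻¹ := by positivity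
      linarith
    linarith
  have hhw := hw_nonneg n (K * n)
  have hmain : lam * (n * (Real.log 2 + 2 * Real.arctan K - Fa (((n + 1 : ℕ) : ℝ) / n))) ≤
      ∑ p ∈ Pr (K * n), hw n p := by
    have h1 : (n : ℝ) * (Real.log 2 + 2 * Real.arctan K - Fa (((n + 1 : ℕ) : ℝ) / n)) ≤
        n * Real.log 2 + ∑ m ∈ Finset.Ioc n (K * n), hw n m := by
      have := mul_le_mul_of_nonneg_left hFK (by linarith : (0 : ℝ) ≤ n)
      nlinarith
    have h2 := mul_le_mul_of_nonneg_left h1 hlam0.le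
    have h3 : 0 ≤ ((Nat.primeCounting (K * n) : ℝ) - lam * ((K * n : ℕ) : ℝ)) * hw n (K * n) :=
      mul_nonneg (by linarith) hhw
    linarith
  refine le_trans ?_ hmain
  have h5 : lam * (n * (Real.log 2 + 2 * Real.arctan K - Fa (((n + 1 : ℕ) : ℝ) / n))) =
      ((1 - ε') * (Real.log n / Real.log ((K * n : ℕ) : ℝ)) *
      (Real.log 2 + 2 * Real.arctan K - Fa (((n + 1 : ℕ) : ℝ) / n))) * (n / Real.log n) := by
    rw [hlam]; field_simp
  rw [h5]
  exact mul_le_mul_of_nonneg_right hn.le (by positivity)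

end Q272.AbcH
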